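import Pool.Agent.Lib.MP_1db5af_an.Dc.Main
import Pool.Agent.Lib.MP_1db5af_an.Weyl

set_option autoImplicit false

namespace Pool.Agent.Results.MP_1db5af_an.Uniform

open MeasureTheory Filter Topology Pool.Agent.Lib.MP_1db5af_an

/-- The iterates `S ^ ⌊G n⌋` decouple in mean square from a system of zero topological entropy,
uniformly over all its orbits. -/
theorem result {X : Type*} [MeasurableSpace X] (μ : Measure X) [IsProbabilityMeasure μ]
    (S : X → X) (hS : MeasurePreserving S μ μ) (c : ℝ) (hc0 : 0 < c) (hc : c < 1 / 2)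
    (g : X → ℂ) (hg : MemLp g ⊤ μ) {Y : Type*} [UniformSpace Y] [CompactSpace Y] (R : Y → Y)
    (hR : Dynamics.coverEntropy R Set.univ = 0) (w : Y → ℂ) (hw : Continuous w) :
    Tendsto (fun N : ℕ => eLpNorm (fun x => ⨆ y : Y,
      ‖(N : ℂ)⁻¹ * ∑ n ∈ Finset.Icc 1 N, w (R^[n] y) *
        (g (S^[⌊G c n⌋₊] x) - (μ[g | MeasurableSpace.invariants S]) x)‖) 2 μ) atTop (𝓝 0) := by
  simpa using Dc.decouple hS (weyl_G hc0 hc) (mono_G hc0) (gap_G hc0) (ι := Empty)
    (T := fun _ => S) (fun _ => hS) (fun i => i.elim) (f := fun _ => g) (fun _ => hg) hg hR hw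

end Pool.Agent.Results.MP_1db5af_an.Uniform
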